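import Pool.Agent.Work.MP_b17785_an.LO.All

/-!
# Coefficient multipliers of the class `S` close to the identity

If `lam n` are coefficient multipliers of `S` close to `1`, then `1 - lam n` has order at least `n`
(measured by `1 - lam 2`). In particular for every semigroup `exp (- t * γ n)`, `t > 0`, of
coefficient multipliers either all `γ n` vanish, or `γ 2 ≠ 0` and `‖γ n‖ ≥ c * ‖γ 2‖ * n` for
infinitely many `n`.
-/

set_option autoImplicit false

open Metric Set Filter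

namespace Pool.Agent.Results.MP_b17785_an.DeviationOrder

/-- The `n`-th Taylor coefficient of `f` at `0`. -/
noncomputable def coeff (f : ℂ → ℂ) (n : ℕ) : ℂ := iteratedDeriv n f 0 / (n.factorial : ℂ)

/-- The class `S`: holomorphic and injective in the open unit disk, `f 0 = 0`, `f' 0 = 1`. -/
def ClassS (f : ℂ → ℂ) : Prop :=
  DifferentiableOn ℂ f (ball 0 1) ∧ InjOn f (ball 0 1) ∧ f 0 = 0 ∧ deriv f 0 = 1

/-- `lam` is a coefficient multiplier from `S` to `S`: for every `f` in `S` the series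
`∑_{n ≥ 1} lam n * a_n * z ^ n` (with `a_n` the Taylor coefficients of `f`) converges in the
unit disk and its sum belongs to `S`. (The value `lam 0` plays no role.) -/
def IsMultiplier (lam : ℕ → ℂ) : Prop :=
  ∀ f : ℂ → ℂ, ClassS f →
    (∀ z ∈ ball (0 : ℂ) 1, Summable (fun n : ℕ => lam (n + 1) * coeff f (n + 1) * z ^ (n + 1))) ∧
    ClassS (fun z => ∑' n : ℕ, lam (n + 1) * coeff f (n + 1) * z ^ (n + 1))

/-- **The order of the deviation from the identity.** -/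
theorem result :
    (∃ c : ℝ, 0 < c ∧ ∀ (ω : ℕ → ℝ) (δ : ℝ), 0 < δ → (∀ᶠ n : ℕ in atTop, ω n ≤ c * δ * n) →
      ∃ ε₀ : ℝ, 0 < ε₀ ∧ ∀ lam : ℕ → ℂ, IsMultiplier lam → ∀ ε : ℝ, 0 < ε → ε < ε₀ →
        (∀ n : ℕ, 1 ≤ n → ‖1 - lam n‖ ≤ ε * ω n) → ‖1 - lam 2‖ ≤ δ * ε) ∧
    (∃ c : ℝ, 0 < c ∧ ∀ γ : ℕ → ℂ,
      (∀ t : ℝ, 0 < t → IsMultiplier (fun n => Complex.exp (-(t * γ n)))) →
      (∀ n : ℕ, 1 ≤ n → γ n = 0) ∨
        (γ 2 ≠ 0 ∧ ∃ᶠ n : ℕ in atTop, c * ‖γ 2‖ * n ≤ ‖γ n‖)) :=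
  Pool.Agent.MultS.LO.lowAll

end Pool.Agent.Results.MP_b17785_an.DeviationOrder
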