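import Pool.Agent.Work.MP_b17785_an.Lip.Asm
import Pool.Agent.Work.MP_b17785_an.LB.AsmF
import Pool.Agent.Work.MP_b17785_an.LB.NbX
import Pool.Agent.Work.MP_b17785_an.Gol

/-!
# Coefficient multipliers of the class `S`: an explicit norm

Away from the rotations the coefficient multipliers of `S` are described, up to an absolute
constant, by a norm which is given explicitly: the bound of the derivative of the Hadamard product
on the products `k * A` of the Koebe function `k(z) = z/(1-z)²` with the polynomials `A`,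
`|A| ≤ 1` in the disk, `∑ m |A_m|² ≤ 1` (so the image of the disk under `A` has area at most `π`).
-/

set_option autoImplicit false

open Metric Set

namespace Pool.Agent.Results.MP_b17785_an.ExplicitMultiplierNorm

/-- The `n`-th Taylor coefficient of `f` at `0`. -/
noncomputable def coeff (f : ℂ → ℂ) (n : ℕ) : ℂ := iteratedDeriv n f 0 / (n.factorial : ℂ)

/-- The class `S`: holomorphic and injective in the open unit disk, `f 0 = 0`, `f' 0 = 1`. -/
def ClassS (f : ℂ → ℂ) : Prop :=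
  DifferentiableOn ℂ f (ball 0 1) ∧ InjOn f (ball 0 1) ∧ f 0 = 0 ∧ deriv f 0 = 1

/-- `lam` is a coefficient multiplier from `S` to `S`: for every `f` in `S` the series
`∑_{n ≥ 1} lam n * a_n * z ^ n` (with `a_n` the Taylor coefficients of `f`) converges in the
unit disk and its sum belongs to `S`. (The value `lam 0` plays no role.) -/
def IsMultiplier (lam : ℕ → ℂ) : Prop :=
  ∀ f : ℂ → ℂ, ClassS f →
    (∀ z ∈ ball (0 : ℂ) 1, Summable (fun n : ℕ => lam (n + 1) * coeff f (n + 1) * z ^ (n + 1))) ∧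
    ClassS (fun z => ∑' n : ℕ, lam (n + 1) * coeff f (n + 1) * z ^ (n + 1))

/-- The Lipschitz norm of `lam` (without the first term) is at most `X`: for every `f` in `S` the
series `∑_{n ≥ 2} n * lam n * a_n * z ^ (n - 1)`, that is the derivative of
`∑_{n ≥ 2} lam n * a_n * z ^ n`, converges in the unit disk to a function bounded by `X`. -/
def LipNormLe (lam : ℕ → ℂ) (X : ℝ) : Prop :=
  ∀ f : ℂ → ℂ, ClassS f → ∀ z ∈ ball (0 : ℂ) 1,
    Summable (fun n : ℕ => ((n : ℂ) + 2) * lam (n + 2) * coeff f (n + 2) * z ^ (n + 1)) ∧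
    ‖∑' n : ℕ, ((n : ℂ) + 2) * lam (n + 2) * coeff f (n + 2) * z ^ (n + 1)‖ ≤ X

/-- The `n`-th coefficient of `k * A`, where `k(z) = z/(1-z)² = ∑ n z ^ n`:
`∑_{m < n} (n - m) A_m`. -/
noncomputable def koebeCoeff (A : Polynomial ℂ) (n : ℕ) : ℂ :=
  ∑ m ∈ Finset.range n, ((n : ℂ) - (m : ℂ)) * A.coeff m

/-- The unit ball: `|A| ≤ 1` in the disk and `∑ m |A_m|² ≤ 1`. -/
def Admissible (A : Polynomial ℂ) : Prop :=
  (∀ z ∈ ball (0 : ℂ) 1, ‖A.eval z‖ ≤ 1) ∧ ∑ m ∈ A.support, (m : ℝ) * ‖A.coeff m‖ ^ 2 ≤ 1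

/-- The explicit norm of `lam` (without the first term) is at most `Y`: the same as `LipNormLe`
with the products `k * A`, `A` admissible, in place of the functions in `S`. -/
def ExplNormLe (lam : ℕ → ℂ) (Y : ℝ) : Prop :=
  ∀ A : Polynomial ℂ, Admissible A → ∀ z ∈ ball (0 : ℂ) 1,
    Summable (fun n : ℕ => ((n : ℂ) + 2) * lam (n + 2) * koebeCoeff A (n + 2) * z ^ (n + 1)) ∧
    ‖∑' n : ℕ, ((n : ℂ) + 2) * lam (n + 2) * koebeCoeff A (n + 2) * z ^ (n + 1)‖ ≤ Y

/-- **The explicit norm for multipliers of univalent functions.** -/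
theorem result : ∃ C : ℝ, 1 ≤ C ∧
    -- the Lipschitz norm and the explicit norm are equivalent
    (∀ (lam : ℕ → ℂ) (X : ℝ), LipNormLe lam X → ExplNormLe lam (C * X)) ∧
    (∀ (lam : ℕ → ℂ) (Y : ℝ), ExplNormLe lam Y → LipNormLe lam (C * Y)) ∧
    -- every dilated multiplier has a neighbourhood of multipliers in the explicit norm
    (∀ (lam eta : ℕ → ℂ) (r : ℝ), IsMultiplier lam → 0 ≤ r → r < 1 → eta 1 = 0 →
      ExplNormLe eta ((1 - r) / (1 + r) ^ 3 / C) →
      IsMultiplier (fun n => (r : ℂ) ^ (n - 1) * lam n + eta n)) ∧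
    -- the second coefficient separates the rotations from the other multipliers
    (∀ lam : ℕ → ℂ, IsMultiplier lam →
      ‖lam 2‖ ≤ 1 ∧ (‖lam 2‖ = 1 → ∀ n : ℕ, 1 ≤ n → lam n = lam 2 ^ (n - 1))) ∧
    -- away from the rotations the multipliers are bounded in the explicit norm
    (∀ η : ℝ, 0 < η → ∃ Y : ℝ, ∀ lam : ℕ → ℂ, IsMultiplier lam → ‖lam 2‖ ≤ 1 - η →
      ExplNormLe lam Y) ∧
    -- small perturbations of the identity function
    (∀ mu : ℕ → ℂ, (∃ c₀ : ℝ, 0 < c₀ ∧ ∀ c : ℝ, 0 < c → c ≤ c₀ →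
      IsMultiplier (fun n => if n ≤ 1 then 1 else (c : ℂ) * mu n)) ↔ ∃ Y : ℝ, ExplNormLe mu Y) := by
  obtain ⟨C, hC, h1, h2⟩ := Pool.Agent.MultS.LB.equA
  refine ⟨C, hC, h1, h2, ?_, Pool.Agent.MultS.Lip.secondAll Pool.Agent.MultS.Lip.prfRotTwo, ?_, ?_⟩
  · intro lam eta r hl hr0 hr1 he hY
    have h3 := h2 eta _ hY
    have hC0 : C ≠ 0 := by
      intro h
      rw [h] at hC
      exact absurd hC (by norm_num)
    rw [mul_div_cancel₀ _ hC0] at h3
    exact Pool.Agent.MultS.LB.nbhdX Pool.Agent.MultS.gol hl hr0 hr1 he h3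
  · intro η hη
    obtain ⟨X, hX⟩ := Pool.Agent.MultS.Lip.dichAll η hη
    exact ⟨C * X, fun lam hl h2' => h1 lam X (hX lam hl h2')⟩
  · intro mu
    have h3 := Pool.Agent.MultS.Lip.pertAll Pool.Agent.MultS.Lip.dichAll
      Pool.Agent.MultS.Lip.prfSuf mu
    refine Iff.trans h3 ⟨?_, ?_⟩
    · rintro ⟨X, hX⟩
      exact ⟨C * X, h1 mu X hX⟩
    · rintro ⟨Y, hY⟩
      exact ⟨C * Y, h2 mu Y hY⟩

end Pool.Agent.Results.MP_b17785_an.ExplicitMultiplierNorm
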