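import Pool.Agent.Work.MP_b17785_an.All
import Pool.Agent.Work.MP_b17785_an.NbhdC
import Pool.Agent.Work.MP_b17785_an.Gol.All

/-!
# Neighbourhoods of coefficient multipliers of the class `S` of univalent functions

If `lam` is a coefficient multiplier of `S` and `0 ≤ r < 1`, then `r ^ (n - 1) * lam n + eta n` is one
for all `eta` with `eta 1 = 0` and `C * ∑ n ^ 2 * ‖eta n‖ ≤ (1 - r) / (1 + r) ^ 3`, where `C` is any
constant with `‖a n‖ ≤ C * n` in `S` (`C = 3` is proved here, `C = 1` is de Branges' theorem);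
and this is sharp for `C = 1`.
-/

set_option autoImplicit false

open Metric Set

namespace Pool.Agent.Results.MP_b17785_an.NeighbourhoodsOfMultipliers

/-- The `n`-th Taylor coefficient of `f` at `0`. -/
noncomputable def coeff (f : ℂ → ℂ) (n : ℕ) : ℂ := iteratedDeriv n f 0 / (n.factorial : ℂ)

/-- The class `S`: holomorphic and injective in the open unit disk, `f 0 = 0`, `f' 0 = 1`. -/
def ClassS (f : ℂ → ℂ) : Prop :=
  DifferentiableOn ℂ f (ball 0 1) ∧ InjOn f (ball 0 1) ∧ f 0 = 0 ∧ deriv f 0 = 1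

/-- `lam` is a coefficient multiplier from `S` to `S`: for every `f` in `S` the series
`∑_{n ≥ 1} lam n * a_n * z ^ n` (with `a_n` the Taylor coefficients of `f`) converges in the
unit disk and its sum belongs to `S`. (The value `lam 0` plays no role.) -/
def IsMultiplier (lam : ℕ → ℂ) : Prop :=
  ∀ f : ℂ → ℂ, ClassS f →
    (∀ z ∈ ball (0 : ℂ) 1, Summable (fun n : ℕ => lam (n + 1) * coeff f (n + 1) * z ^ (n + 1))) ∧
    ClassS (fun z => ∑' n : ℕ, lam (n + 1) * coeff f (n + 1) * z ^ (n + 1))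

/-- `|a_n| ≤ C * n` for all functions in the class `S`. -/
def CoeffBound (C : ℝ) : Prop := ∀ f : ℂ → ℂ, ClassS f → ∀ n : ℕ, 1 ≤ n → ‖coeff f n‖ ≤ C * n

/-- **Neighbourhoods of multipliers, and their size.** -/
theorem result : CoeffBound 3 ∧
    (∀ C : ℝ, CoeffBound C → ∀ (lam eta : ℕ → ℂ) (r : ℝ), IsMultiplier lam → 0 ≤ r → r < 1 →
      eta 1 = 0 → Summable (fun n : ℕ => (n : ℝ) ^ 2 * ‖eta n‖) →
      C * ∑' n : ℕ, (n : ℝ) ^ 2 * ‖eta n‖ ≤ (1 - r) / (1 + r) ^ 3 →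
      IsMultiplier (fun n => (r : ℂ) ^ (n - 1) * lam n + eta n)) ∧
    (∀ (nu : ℕ → ℝ) (r : ℝ), 0 ≤ r → r < 1 → (∀ n, 0 ≤ nu n) →
      IsMultiplier (fun n => (r : ℂ) ^ (n - 1) + (-1) ^ n * nu n) →
      Summable (fun n : ℕ => (n : ℝ) ^ 2 * nu n) ∧
        ∑' n : ℕ, (n : ℝ) ^ 2 * nu n ≤ (1 - r) / (1 + r) ^ 3) :=
  ⟨Pool.Agent.MultS.littAll,
    fun _ hC _ _ _ hlam hr0 hr1 h1 hs hle =>
      Pool.Agent.MultS.nbhdA Pool.Agent.MultS.gol hC hlam hr0 hr1 h1 hs hle,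
    fun _ _ hr0 hr1 hnu h => Pool.Agent.MultS.nbhdC hr0 hr1 hnu h⟩

end Pool.Agent.Results.MP_b17785_an.NeighbourhoodsOfMultipliers
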