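import Pool.Agent.Work.MP_b17785_an.SG.All

/-!
# Semigroups of coefficient multipliers of the class `S` of univalent functions

(1) A dilation `r ^ (n - 1)` may be perturbed by every average `∫ ρ ^ (n - 1) dν(ρ)` of stronger
dilations over a complex measure `ν` on `[0, r]` whose total variation on every dyadic shell
`v ≤ 1 - ρ ≤ 2 v` is at most `(1 - r) / C`.

(2) `γ n = (a + b i) (n - 1) + ∫ (1 - ρ ^ (n - 1)) dν(ρ) + eta n` generates a semigroup
`exp (-t γ n)`, `t ≥ 0`, of coefficient multipliers if the total variation of `ν` on every dyadic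
shell and the explicit norm of `eta` are at most `a / C`. The total mass of `ν` may be infinite.
-/

set_option autoImplicit false

open Metric Set Filter MeasureTheory

namespace Pool.Agent.Results.MP_b17785_an.RadialSemigroups

/-- The `n`-th Taylor coefficient of `f` at `0`. -/
noncomputable def coeff (f : ℂ → ℂ) (n : ℕ) : ℂ := iteratedDeriv n f 0 / (n.factorial : ℂ)

/-- The class `S`: holomorphic and injective in the open unit disk, `f 0 = 0`, `f' 0 = 1`. -/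
def ClassS (f : ℂ → ℂ) : Prop :=
  DifferentiableOn ℂ f (ball 0 1) ∧ InjOn f (ball 0 1) ∧ f 0 = 0 ∧ deriv f 0 = 1

/-- `lam` is a coefficient multiplier from `S` to `S`: for every `f` in `S` the series
`∑_{n ≥ 1} lam n * a_n * z ^ n` (with `a_n` the Taylor coefficients of `f`) converges in the
unit disk and its sum belongs to `S`. (The value `lam 0` plays no role.) -/
def IsMultiplier (lam : ℕ → ℂ) : Prop :=
  ∀ f : ℂ → ℂ, ClassS f →
    (∀ z ∈ ball (0 : ℂ) 1, Summable (fun n : ℕ => lam (n + 1) * coeff f (n + 1) * z ^ (n + 1))) ∧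
    ClassS (fun z => ∑' n : ℕ, lam (n + 1) * coeff f (n + 1) * z ^ (n + 1))

/-- The `n`-th coefficient of `k * A`, where `k(z) = z/(1-z)² = ∑ n z ^ n`:
`∑_{m < n} (n - m) A_m`. -/
noncomputable def koebeCoeff (A : Polynomial ℂ) (n : ℕ) : ℂ :=
  ∑ m ∈ Finset.range n, ((n : ℂ) - (m : ℂ)) * A.coeff m

/-- `|A| ≤ 1` in the disk and `∑ m |A_m|² ≤ 1`. -/
def Admissible (A : Polynomial ℂ) : Prop :=
  (∀ z ∈ ball (0 : ℂ) 1, ‖A.eval z‖ ≤ 1) ∧ ∑ m ∈ A.support, (m : ℝ) * ‖A.coeff m‖ ^ 2 ≤ 1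

/-- The explicit norm of `lam` (without the first term) is at most `Y`: for admissible `A` the
derivative of the Hadamard product of `k * A` with `lam` (without its first term) is at most `Y`. -/
def ExplNormLe (lam : ℕ → ℂ) (Y : ℝ) : Prop :=
  ∀ A : Polynomial ℂ, Admissible A → ∀ z ∈ ball (0 : ℂ) 1,
    Summable (fun n : ℕ => ((n : ℂ) + 2) * lam (n + 2) * koebeCoeff A (n + 2) * z ^ (n + 1)) ∧
    ‖∑' n : ℕ, ((n : ℂ) + 2) * lam (n + 2) * koebeCoeff A (n + 2) * z ^ (n + 1)‖ ≤ Y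

/-- The complex measure with density `g` with respect to `m` has total variation at most `M` on
every shell `{ρ : v ≤ 1 - ρ ≤ 2 v}`, `v > 0`. -/
def ShellBound (m : Measure ℝ) (g : ℝ → ℂ) (M : ℝ) : Prop :=
  AEStronglyMeasurable g m ∧ ∀ v : ℝ, 0 < v →
    ∫⁻ ρ in Icc (1 - 2 * v) (1 - v), ‖g ρ‖ₑ ∂m ≤ ENNReal.ofReal M

/-- **Semigroups of coefficient multipliers.** -/
theorem result : ∃ C : ℝ, 1 ≤ C ∧
    -- perturbations of dilated multipliers by averages of stronger dilations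
    (∀ (m : Measure ℝ) (g : ℝ → ℂ) (r : ℝ) (lam : ℕ → ℂ), 0 < r → r < 1 → IsMultiplier lam →
      (∀ᵐ ρ ∂m, g ρ ≠ 0 → 0 ≤ ρ ∧ ρ ≤ r) → ShellBound m g ((1 - r) / C) →
      1 + ∫ ρ, g ρ ∂m ≠ 0 ∧
      IsMultiplier (fun n => lam n * (((r : ℂ) ^ (n - 1) + ∫ ρ, (ρ : ℂ) ^ (n - 1) * g ρ ∂m) /
        (1 + ∫ ρ, g ρ ∂m)))) ∧
    -- generators of semigroups
    (∀ (m : Measure ℝ) (g : ℝ → ℂ) (a b : ℝ) (eta : ℕ → ℂ), 0 < a →
      (∀ᵐ ρ ∂m, g ρ ≠ 0 → 0 ≤ ρ ∧ ρ < 1) → ShellBound m g (a / C) →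
      eta 1 = 0 → ExplNormLe eta (a / C) → ∀ t : ℝ, 0 ≤ t →
      IsMultiplier (fun n => Complex.exp (-(t * (((a : ℂ) + b * Complex.I) * ((n - 1 : ℕ) : ℂ) +
        ∫ ρ, (1 - (ρ : ℂ) ^ (n - 1)) * g ρ ∂m + eta n))))) := by
  obtain ⟨c, hc, h1⟩ := Pool.Agent.MultS.SG.stepA
  obtain ⟨c', hc', h2⟩ := Pool.Agent.MultS.SG.semiA
  refine ⟨max 1 (max (1 / c) (1 / c')), le_max_left _ _, ?_, ?_⟩
  · intro m g r lam hr0 hr1 hlam hs hb
    refine h1 m g r lam hr0 hr1 (Pool.Agent.MultS.SG.Dat.mono ⟨hb.1, hs, hb.2⟩ ?_) hlam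
    have hC : 1 / c ≤ max 1 (max (1 / c) (1 / c')) := (le_max_left _ _).trans (le_max_right _ _)
    have hr : 0 < 1 - r := by linarith
    rw [div_le_iff₀ (by positivity)]
    calc 1 - r = c * (1 - r) * (1 / c) := by field_simp
      _ ≤ _ := mul_le_mul_of_nonneg_left hC (by positivity)
  · intro m g a b eta ha hs hb he hN t ht
    have hC : 1 / c' ≤ max 1 (max (1 / c) (1 / c')) :=
      (le_max_right _ _).trans (le_max_right _ _)
    have hle : a / max 1 (max (1 / c) (1 / c')) ≤ c' * a := by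
      rw [div_le_iff₀ (by positivity)]
      calc a = c' * a * (1 / c') := by field_simp
        _ ≤ _ := mul_le_mul_of_nonneg_left hC (by positivity)
    refine h2 m g a b eta ha (Pool.Agent.MultS.SG.DatO.mono ⟨hb.1, hs, hb.2⟩ hle) he ?_ t ht
    intro A hA z hz
    obtain ⟨h3, h4⟩ := hN A hA z hz
    exact ⟨h3, h4.trans hle⟩

end Pool.Agent.Results.MP_b17785_an.RadialSemigroups
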